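import Pool.Agent.T9h21.DP.Spec3

/-!
# Project DPA, piece (u4): pairwise independent hashing
-/

open Finset

set_option autoImplicit false

namespace Pool.Agent.T9h8.DP

open Pool.Agent.T9h21.DP

section hash

variable {q n : ℕ} [Fact q.Prime]

/-- the value of the hash function at `v` -/
def hv (c : ZMod q × ZMod q) (v : Fin n) : ZMod q := c.1 * ((v : ℕ) : ZMod q) + c.2

theorem cast_inj (hn : n ≤ q) {v v' : Fin n} (h : ((v : ℕ) : ZMod q) = ((v' : ℕ) : ZMod q)) :
    v = v' := by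
  have h1 := (ZMod.natCast_eq_natCast_iff' _ _ _).1 h
  rw [Nat.mod_eq_of_lt (lt_of_lt_of_le v.2 hn), Nat.mod_eq_of_lt (lt_of_lt_of_le v'.2 hn)] at h1
  exact Fin.ext h1

theorem count_one (Q : Finset (ZMod q)) (v : Fin n) :
    (univ.filter fun c : ZMod q × ZMod q => hv c v ∈ Q).card = q * Q.card := by
  classical
  have hinj : Function.Injective (fun c : ZMod q × ZMod q => (c.1, hv c v)) := by
    rintro ⟨a, b⟩ ⟨a', b'⟩ h
    simp only [Prod.mk.injEq, hv] at h
    obtain ⟨h1, h2⟩ := h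
    subst h1
    rw [add_left_cancel h2]
  have hbij := Finite.injective_iff_bijective.1 hinj
  rw [Finset.card_equiv (t := (univ : Finset (ZMod q)) ×ˢ Q) (Equiv.ofBijective _ hbij)]
  · rw [card_product, card_univ, ZMod.card]
  · intro c
    simp

theorem count_two (hn : n ≤ q) (Q : Finset (ZMod q)) (v v' : Fin n) (hvv : v ≠ v') :
    (univ.filter fun c : ZMod q × ZMod q => hv c v ∈ Q ∧ hv c v' ∈ Q).card =
      Q.card * Q.card := by
  classical
  have hinj : Function.Injective (fun c : ZMod q × ZMod q => (hv c v, hv c v')) := by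
    rintro ⟨a, b⟩ ⟨a', b'⟩ h
    simp only [Prod.mk.injEq, hv] at h
    obtain ⟨h1, h2⟩ := h
    have h3 : (a - a') * (((v : ℕ) : ZMod q) - ((v' : ℕ) : ZMod q)) = 0 := by
      linear_combination h1 - h2
    rcases mul_eq_zero.1 h3 with h4 | h4
    · have h5 : a = a' := sub_eq_zero.1 h4
      subst h5
      rw [add_left_cancel h1]
    · exact absurd (cast_inj hn (sub_eq_zero.1 h4)) hvv
  have hbij := Finite.injective_iff_bijective.1 hinj
  rw [Finset.card_equiv (t := Q ×ˢ Q) (Equiv.ofBijective _ hbij)]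
  · rw [card_product]
  · intro c
    simp

/-- Chebyshev -/
theorem cheb (hn : n ≤ q) (Q : Finset (ZMod q)) (hQ : q ≤ 8 * Q.card) (J : Finset (Fin n))
    (hJ : J.Nonempty) :
    ((univ.filter fun c : ZMod q × ZMod q => ∀ v ∈ J, hv c v ∉ Q).card : ℝ) * J.card ≤
      7 * (q : ℝ) ^ 2 := by
  classical
  have hqp : q.Prime := Fact.out
  have hq0 : (0 : ℝ) < q := by exact_mod_cast hqp.pos
  obtain ⟨t, ht⟩ : ∃ t : ℝ, t = Q.card := ⟨_, rfl⟩
  obtain ⟨m, hm⟩ : ∃ m : ℝ, m = J.card := ⟨_, rfl⟩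
  have hqt : (q : ℝ) ≤ 8 * t := by
    rw [ht]
    exact_mod_cast hQ
  have ht0 : 0 < t := by linarith
  have hm0 : 0 < m := by
    rw [hm]
    exact_mod_cast hJ.card_pos
  obtain ⟨ind, hind⟩ : ∃ ind : ZMod q × ZMod q → Fin n → ℝ,
    ind = fun c v => if hv c v ∈ Q then 1 else 0 := ⟨_, rfl⟩
  obtain ⟨X, hX⟩ : ∃ X : ZMod q × ZMod q → ℝ, X = fun c => ∑ v ∈ J, ind c v := ⟨_, rfl⟩
  have hS1 : ∑ c, X c = m * (q * t) := by
    rw [hX]
    simp only
    rw [sum_comm]
    have h1 : ∀ v ∈ J, ∑ c, ind c v = q * t := by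
      intro v _
      rw [hind]
      simp only
      rw [sum_boole, count_one, ht]
      push_cast
      rfl
    rw [sum_congr rfl h1, sum_const, nsmul_eq_mul, hm]
  have hS2 : ∑ c, X c ^ 2 = m * (q * t) + (m ^ 2 - m) * t ^ 2 := by
    have h1 : ∀ c, X c ^ 2 = ∑ v ∈ J, ∑ v' ∈ J, ind c v * ind c v' := by
      intro c
      rw [hX]
      simp only
      rw [sq, sum_mul_sum]
    have h2 : ∀ v ∈ J, ∀ v' ∈ J, ∑ c, ind c v * ind c v' =
        t ^ 2 + if v = v' then q * t - t ^ 2 else 0 := by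
      intro v _ v' _
      have h3 : ∀ c, ind c v * ind c v' = if hv c v ∈ Q ∧ hv c v' ∈ Q then (1 : ℝ) else 0 := by
        intro c
        rw [hind]
        simp only
        by_cases h1 : hv c v ∈ Q <;> by_cases h2 : hv c v' ∈ Q <;> simp [h1, h2]
      rw [sum_congr rfl (fun c _ => h3 c), sum_boole]
      by_cases hvv : v = v'
      · subst hvv
        simp only [and_self, if_true]
        rw [count_one, ht]
        push_cast
        ring
      · rw [count_two hn Q v v' hvv, if_neg hvv, ht]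
        push_cast
        ring
    rw [sum_congr rfl (fun c _ => h1 c), sum_comm]
    have h3 : ∀ v ∈ J, ∑ c, ∑ v' ∈ J, ind c v * ind c v' =
        m * t ^ 2 + (q * t - t ^ 2) := by
      intro v hv
      rw [sum_comm, sum_congr rfl (fun v' hv' => h2 v hv v' hv'), sum_add_distrib, sum_const,
        nsmul_eq_mul, sum_ite_eq, if_pos hv, hm]
    rw [sum_congr rfl h3, sum_const, nsmul_eq_mul, ← hm]
    ring
  obtain ⟨μ, hμ⟩ : ∃ μ : ℝ, μ = m * t / q := ⟨_, rfl⟩
  have hvar : ∑ c, (X c - μ) ^ 2 = m * t * (q - t) := by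
    have h1 : ∀ c, (X c - μ) ^ 2 = X c ^ 2 - 2 * μ * X c + μ ^ 2 := fun c => by ring
    rw [sum_congr rfl (fun c _ => h1 c), sum_add_distrib, sum_sub_distrib, ← mul_sum, hS1, hS2,
      sum_const, card_univ, Fintype.card_prod, ZMod.card, nsmul_eq_mul, hμ]
    push_cast
    field_simp
    ring
  have hlow : ((univ.filter fun c : ZMod q × ZMod q => ∀ v ∈ J, hv c v ∉ Q).card : ℝ) * μ ^ 2 ≤
      ∑ c, (X c - μ) ^ 2 := by
    rw [← nsmul_eq_mul, ← sum_const]
    calc _ = ∑ c ∈ univ.filter (fun c : ZMod q × ZMod q => ∀ v ∈ J, hv c v ∉ Q), (X c - μ) ^ 2 := by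
          refine sum_congr rfl fun c hc => ?_
          have h1 := (mem_filter.1 hc).2
          have h2 : X c = 0 := by
            rw [hX]
            simp only
            refine sum_eq_zero fun v hv => ?_
            rw [hind]
            simp only
            rw [if_neg (h1 v hv)]
          rw [h2]
          ring
      _ ≤ _ := sum_le_sum_of_subset_of_nonneg (filter_subset _ _) fun _ _ _ => sq_nonneg _
  rw [hvar] at hlow
  obtain ⟨N0, hN0⟩ : ∃ N0 : ℝ,
    N0 = ((univ.filter fun c : ZMod q × ZMod q => ∀ v ∈ J, hv c v ∉ Q).card : ℝ) := ⟨_, rfl⟩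
  rw [← hN0] at hlow ⊢
  rw [← hm]
  have h5 : N0 * μ ^ 2 ≤ m * t * (7 * t) := by
    refine hlow.trans ?_
    apply mul_le_mul_of_nonneg_left _ (by positivity)
    linarith
  rw [hμ, div_pow, ← mul_div_assoc, div_le_iff₀ (by positivity)] at h5
  have h6 : 0 < m * t ^ 2 := by positivity
  have h7 : (N0 * m) * (m * t ^ 2) ≤ (7 * (q : ℝ) ^ 2) * (m * t ^ 2) := by
    calc (N0 * m) * (m * t ^ 2) = N0 * (m * t) ^ 2 := by ring
      _ ≤ m * t * (7 * t) * (q : ℝ) ^ 2 := h5
      _ = _ := by ring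
  exact le_of_mul_le_mul_right h7 h6

end hash

theorem card_pull {ι : Type} [Fintype ι] {k : ℕ} (e : ι ≃ Fin k) (P : ι → Prop)
    [DecidablePred P] [DecidablePred fun i => P (e.symm i)] :
    (univ.filter fun i : Fin k => P (e.symm i)).card = (univ.filter P).card :=
  Finset.card_equiv e.symm (by simp)

theorem uHash : U_hash := by
  classical
  intro n hn
  obtain ⟨q, hqp, hq1, hq2⟩ := Nat.exists_prime_lt_and_le_two_mul n (by omega)
  have : Fact q.Prime := ⟨hqp⟩
  have : NeZero q := ⟨hqp.ne_zero⟩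
  -- the target set
  obtain ⟨Q, hQ⟩ : ∃ Q : Finset (ZMod q), Q.card = q / 8 + 1 := by
    have h1 : q / 8 + 1 ≤ (univ : Finset (ZMod q)).card := by
      rw [card_univ, ZMod.card]
      omega
    obtain ⟨Q, -, hQ⟩ := Finset.exists_subset_card_eq h1
    exact ⟨Q, hQ⟩
  let ι : Type := (ZMod q × ZMod q) × (ZMod q × ZMod q)
  have hcard : Fintype.card ι = q ^ 4 := by
    change Fintype.card ((ZMod q × ZMod q) × (ZMod q × ZMod q)) = _
    rw [Fintype.card_prod, Fintype.card_prod, ZMod.card]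
    ring
  let e : ι ≃ Fin (Fintype.card ι) := Fintype.equivFin ι
  let BB : ι → Finset (Fin n) := fun c => univ.filter fun v => hv c.1 v ∈ Q ∨ hv c.2 v ∈ Q
  refine ⟨Fintype.card ι, fun i => BB (e.symm i), ?_, ?_, ?_, ?_⟩
  · rw [hcard]
    exact Nat.pow_pos hqp.pos
  · rw [hcard]
    exact Nat.pow_le_pow_left hq2 4
  · intro v
    rw [card_pull e (fun c => v ∈ BB c), hcard]
    have h1 : (univ.filter fun c : ι => v ∈ BB c) ⊆
        ((univ.filter fun c : ZMod q × ZMod q => hv c v ∈ Q) ×ˢ univ) ∪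
          (univ ×ˢ (univ.filter fun c : ZMod q × ZMod q => hv c v ∈ Q)) := by
      intro c hc
      have h2 := (mem_filter.1 (mem_filter.1 hc).2).2
      rcases h2 with h2 | h2
      · exact mem_union_left _ (mem_product.2 ⟨mem_filter.2 ⟨mem_univ _, h2⟩, mem_univ _⟩)
      · exact mem_union_right _ (mem_product.2 ⟨mem_univ _, mem_filter.2 ⟨mem_univ _, h2⟩⟩)
    have h2 := (card_le_card h1).trans (card_union_le _ _)
    rw [card_product, card_product, count_one, card_univ, Fintype.card_prod, ZMod.card, hQ] at h2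
    have h3 : 3 * (univ.filter fun c : ι => v ∈ BB c).card ≤ q ^ 4 := by
      have h4 : 6 * (q / 8 + 1) ≤ q := by omega
      calc 3 * (univ.filter fun c : ι => v ∈ BB c).card
          ≤ 3 * (q * (q / 8 + 1) * (q * q) + q * q * (q * (q / 8 + 1))) :=
            Nat.mul_le_mul_left 3 h2
        _ = 6 * (q / 8 + 1) * (q * q * q) := by ring
        _ ≤ q * (q * q * q) := Nat.mul_le_mul_right _ h4
        _ = q ^ 4 := by ring
    exact_mod_cast h3
  · intro J hJ
    rw [card_pull e (fun c => Disjoint (BB c) J), hcard]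
    obtain ⟨S, hS⟩ : ∃ S : Finset (ZMod q × ZMod q),
      S = univ.filter fun c : ZMod q × ZMod q => ∀ v ∈ J, hv c v ∉ Q := ⟨_, rfl⟩
    have h1 : (univ.filter fun c : ι => Disjoint (BB c) J) ⊆ S ×ˢ S := by
      intro c hc
      have h2 := (mem_filter.1 hc).2
      rw [Finset.disjoint_left] at h2
      rw [hS]
      refine mem_product.2 ⟨mem_filter.2 ⟨mem_univ _, fun v hv hvQ => ?_⟩,
        mem_filter.2 ⟨mem_univ _, fun v hv hvQ => ?_⟩⟩
      · exact h2 (mem_filter.2 ⟨mem_univ _, Or.inl hvQ⟩) hv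
      · exact h2 (mem_filter.2 ⟨mem_univ _, Or.inr hvQ⟩) hv
    have h2 := card_le_card h1
    rw [card_product] at h2
    have h3 := cheb hq1.le Q (by rw [hQ]; omega) J hJ
    rw [← hS] at h3
    have hm0 : (0 : ℝ) < J.card := by exact_mod_cast hJ.card_pos
    have h4 : ((univ.filter fun c : ι => Disjoint (BB c) J).card : ℝ) ≤
        (S.card : ℝ) * S.card := by exact_mod_cast h2
    refine h4.trans ?_
    rw [div_mul_eq_mul_div, le_div_iff₀ (by positivity)]
    have h5 : ((S.card : ℝ) * J.card) * ((S.card : ℝ) * J.card) ≤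
        (7 * (q : ℝ) ^ 2) * (7 * (q : ℝ) ^ 2) :=
      mul_le_mul h3 h3 (by positivity) (by positivity)
    push_cast
    calc (S.card : ℝ) * S.card * (J.card : ℝ) ^ 2 =
        ((S.card : ℝ) * J.card) * ((S.card : ℝ) * J.card) := by ring
      _ ≤ _ := h5
      _ = _ := by ring

end Pool.Agent.T9h8.DP
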