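import Pool.Agent.T9h21.DP.Spec4

/-!
# A decreasing family of sets is sandwiched by few of its members
-/

set_option autoImplicit false

namespace Pool.Agent.T9h8.DP

open Finset
open Pool.Agent.T9h21.DP

private lemma exists_min {m : ℕ} (A : ℝ → Finset (Cut m)) (hA : ∀ σ τ, σ ≤ τ → A τ ⊆ A σ)
    (P : ℝ → Prop) (h : ∃ τ, P τ) : ∃ τ₀, P τ₀ ∧ ∀ σ, P σ → A τ₀ ⊆ A σ := by
  obtain ⟨τ₀, h1, h2⟩ := (measure fun τ => (A τ).card).wf.has_min {τ | P τ} h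
  refine ⟨τ₀, h1, fun σ hσ => ?_⟩
  have h3 : ¬ ((A σ).card < (A τ₀).card) := h2 σ hσ
  rcases le_total τ₀ σ with h4 | h4
  · rw [Finset.eq_of_subset_of_card_le (hA _ _ h4) (not_lt.1 h3)]
  · exact hA _ _ h4

private lemma exists_max {m : ℕ} (A : ℝ → Finset (Cut m)) (hA : ∀ σ τ, σ ≤ τ → A τ ⊆ A σ)
    (P : ℝ → Prop) (h : ∃ τ, P τ) : ∃ τ₀, P τ₀ ∧ ∀ σ, P σ → A σ ⊆ A τ₀ := by
  obtain ⟨τ₀, h1, h2⟩ := (measure fun τ => Fintype.card (Cut m) - (A τ).card).wf.has_min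
    {τ | P τ} h
  refine ⟨τ₀, h1, fun σ hσ => ?_⟩
  have h3 : ¬ (Fintype.card (Cut m) - (A σ).card < Fintype.card (Cut m) - (A τ₀).card) := h2 σ hσ
  have h5 : (A σ).card ≤ Fintype.card (Cut m) := Finset.card_le_univ _
  rcases le_total τ₀ σ with h4 | h4
  · exact hA _ _ h4
  · rw [Finset.eq_of_subset_of_card_le (hA _ _ h4) (by omega)]

theorem vChain (m : ℕ) : V_chain m := by
  classical
  intro w L hw hL A hA
  have h1 : ∀ k : ℕ, ∃ B : Finset (Cut m), (∃ τ, (k : ℝ) / 3 ≤ ∑ χ ∈ A τ, w χ) →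
      (k : ℝ) / 3 ≤ ∑ χ ∈ B, w χ ∧ ∀ σ, (k : ℝ) / 3 ≤ ∑ χ ∈ A σ, w χ → B ⊆ A σ := by
    intro k
    by_cases h : ∃ τ, (k : ℝ) / 3 ≤ ∑ χ ∈ A τ, w χ
    · obtain ⟨τ₀, h1, h2⟩ := exists_min A hA (fun τ => (k : ℝ) / 3 ≤ ∑ χ ∈ A τ, w χ) h
      exact ⟨A τ₀, fun _ => ⟨h1, h2⟩⟩
    · exact ⟨∅, fun h' => absurd h' h⟩
  have h2 : ∀ k : ℕ, ∃ B : Finset (Cut m), (∃ τ, ∑ χ ∈ A τ, w χ ≤ (k : ℝ) / 3) →
      ∑ χ ∈ B, w χ ≤ (k : ℝ) / 3 ∧ ∀ σ, ∑ χ ∈ A σ, w χ ≤ (k : ℝ) / 3 → A σ ⊆ B := by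
    intro k
    by_cases h : ∃ τ, ∑ χ ∈ A τ, w χ ≤ (k : ℝ) / 3
    · obtain ⟨τ₀, h1, h2⟩ := exists_max A hA (fun τ => ∑ χ ∈ A τ, w χ ≤ (k : ℝ) / 3) h
      exact ⟨A τ₀, fun _ => ⟨h1, h2⟩⟩
    · exact ⟨∅, fun h' => absurd h' h⟩
  choose B₁ hB₁ using h1
  choose B₂ hB₂ using h2
  refine ⟨fun i => if (i : ℕ) < 3 * L + 2 then B₁ i else B₂ ((i : ℕ) - (3 * L + 2)), fun τ => ?_⟩
  have hW0 : 0 ≤ ∑ χ ∈ A τ, w χ := Finset.sum_nonneg fun χ _ => hw χ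
  have hWL : ∑ χ ∈ A τ, w χ ≤ L :=
    (Finset.sum_le_sum_of_subset_of_nonneg (Finset.subset_univ _) fun χ _ _ => hw χ).trans hL
  obtain ⟨k, hk⟩ : ∃ k : ℕ, k = ⌊3 * ∑ χ ∈ A τ, w χ⌋₊ := ⟨_, rfl⟩
  have hk1 : (k : ℝ) ≤ 3 * ∑ χ ∈ A τ, w χ := by
    rw [hk]; exact Nat.floor_le (by positivity)
  have hk2 : 3 * ∑ χ ∈ A τ, w χ < (k : ℝ) + 1 := by
    rw [hk]; exact Nat.lt_floor_add_one _
  have hk3 : k ≤ 3 * L := by
    have h3 : (k : ℝ) ≤ ((3 * L : ℕ) : ℝ) := by push_cast; linarith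
    exact_mod_cast h3
  constructor
  · obtain ⟨h4, h5⟩ := hB₁ k ⟨τ, by linarith⟩
    have h6 := h5 τ (by linarith)
    refine ⟨⟨k, by omega⟩, ?_, ?_⟩
    · simp only [show k < 3 * L + 2 by omega, if_true]
      exact h6
    · simp only [show k < 3 * L + 2 by omega, if_true]
      have h7 := Finset.sum_sdiff (f := w) h6
      linarith
  · obtain ⟨h4, h5⟩ := hB₂ (k + 1) ⟨τ, by push_cast; linarith⟩
    have h6 := h5 τ (by push_cast; linarith)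
    have h8 : ¬ (3 * L + 2 + (k + 1) < 3 * L + 2) := by omega
    have h9 : 3 * L + 2 + (k + 1) - (3 * L + 2) = k + 1 := by omega
    refine ⟨⟨3 * L + 2 + (k + 1), by omega⟩, ?_, ?_⟩
    · simp only [h8, if_false, h9]
      exact h6
    · simp only [h8, if_false, h9]
      have h7 := Finset.sum_sdiff (f := w) h6
      push_cast at h4
      linarith

end Pool.Agent.T9h8.DP
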